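import Pool.Agent.Helper12.XG.St

/-!
Project XG (MP_627c93_nt), module RES: sum of residues.
-/

set_option autoImplicit false

namespace Pool.Agent.Helper40.XG

open Finset Polynomial Pool.Agent.Helper12.XG Pool.Agent.Helper14.GS

/-- iterated derivatives from a chain of scaled derivatives -/
private theorem iter_chain (U : Set ℂ) (hU : IsOpen U) (G : ℕ → ℂ → ℂ)
    (hG : ∀ b, ∀ z ∈ U, HasDerivAt (G b) (((b : ℂ) + 1) * G (b + 1) z) z) (f : ℂ → ℂ)
    (hf : ∀ z ∈ U, f z = G 0 z) (b : ℕ) : ∀ z ∈ U,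
    iteratedDeriv b f z = (b.factorial : ℂ) * G b z := by
  induction b with
  | zero =>
    intro z hz
    rw [iteratedDeriv_zero, hf z hz]
    simp
  | succ b ih =>
    intro z hz
    rw [iteratedDeriv_succ]
    have h1 : iteratedDeriv b f =ᶠ[nhds z] fun z => (b.factorial : ℂ) * G b z := by
      filter_upwards [hU.mem_nhds hz] with y hy
      exact ih y hy
    rw [h1.deriv_eq, ((hG b z hz).const_mul (b.factorial : ℂ)).deriv, Nat.factorial_succ]
    push_cast
    ring

private theorem poly_deriv (P : ℂ[X]) (b : ℕ) (z : ℂ) :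
    HasDerivAt (fun z => (hasseDeriv b P).eval z)
      (((b : ℂ) + 1) * (hasseDeriv (b + 1) P).eval z) z := by
  have h1 := (hasseDeriv b P).hasDerivAt z
  have h2 : derivative (hasseDeriv b P) = (b + 1) • hasseDeriv (b + 1) P := by
    have h3 := congrArg (fun L => L P) (hasseDeriv_comp (R := ℂ) 1 b)
    simp only [LinearMap.comp_apply, hasseDeriv_one', LinearMap.smul_apply] at h3
    rw [h3, Nat.choose_one_right, add_comm 1 b]
  rw [h2] at h1
  have h4 : ((b + 1) • hasseDeriv (b + 1) P).eval z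
      = ((b : ℂ) + 1) * (hasseDeriv (b + 1) P).eval z := by
    rw [eval_smul, nsmul_eq_mul]
    push_cast
    ring
  rw [h4] at h1
  exact h1

private theorem pole_deriv (c : ℂ) (i b : ℕ) (z : ℂ) (hz : z ≠ c) :
    HasDerivAt (fun z => (-1) ^ b * ((b + i).choose i : ℂ) * ((z - c)⁻¹) ^ (b + 1 + i))
      (((b : ℂ) + 1) * ((-1) ^ (b + 1) * ((b + 1 + i).choose i : ℂ)
        * ((z - c)⁻¹) ^ (b + 1 + 1 + i))) z := by
  have h0 : z - c ≠ 0 := sub_ne_zero.2 hz
  have h1 : HasDerivAt (fun z => (z - c)⁻¹) (-((z - c) ^ 2)⁻¹) z := by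
    have h2 := ((hasDerivAt_id z).sub_const c).inv h0
    have h3 : -1 / (id z - c) ^ 2 = -((z - c) ^ 2)⁻¹ := by
      rw [id_eq]
      ring
    rw [h3] at h2
    exact h2
  have h2 := (h1.pow (b + 1 + i)).const_mul ((-1) ^ b * ((b + i).choose i : ℂ))
  have h3 : (-1 : ℂ) ^ b * ((b + i).choose i : ℂ)
        * (((b + 1 + i : ℕ) : ℂ) * (z - c)⁻¹ ^ (b + 1 + i - 1) * -((z - c) ^ 2)⁻¹)
      = ((b : ℂ) + 1) * ((-1) ^ (b + 1) * ((b + 1 + i).choose i : ℂ)
        * ((z - c)⁻¹) ^ (b + 1 + 1 + i)) := by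
    have h4 : (((b + 1 + i).choose i : ℕ) : ℂ) * ((b : ℂ) + 1)
        = ((b + i).choose i : ℂ) * ((b : ℂ) + 1 + i) := by
      have h5 := Nat.choose_mul_succ_eq (b + i) i
      have h6 : b + i + 1 - i = b + 1 := by omega
      rw [h6] at h5
      have h7 : b + i + 1 = b + 1 + i := by ring
      rw [h7] at h5
      have h8 := congrArg (fun k : ℕ => (k : ℂ)) h5
      push_cast at h8
      rw [h8]
    have h9 : b + 1 + i - 1 = b + i := by omega
    rw [h9]
    have h10 : (z - c)⁻¹ ^ (b + i) * ((z - c) ^ 2)⁻¹ = ((z - c)⁻¹) ^ (b + 1 + 1 + i) := by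
      rw [← inv_pow, ← pow_add]
      congr 1
      ring
    calc (-1 : ℂ) ^ b * ((b + i).choose i : ℂ)
        * (((b + 1 + i : ℕ) : ℂ) * (z - c)⁻¹ ^ (b + i) * -((z - c) ^ 2)⁻¹)
        = -((-1 : ℂ) ^ b) * (((b + i).choose i : ℂ) * ((b + 1 + i : ℕ) : ℂ))
          * ((z - c)⁻¹ ^ (b + i) * ((z - c) ^ 2)⁻¹) := by ring
      _ = -((-1 : ℂ) ^ b) * ((((b + 1 + i).choose i : ℕ) : ℂ) * ((b : ℂ) + 1))
          * ((z - c)⁻¹) ^ (b + 1 + 1 + i) := by
          rw [h10, h4]
          push_cast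
          ring
      _ = _ := by
          rw [pow_succ (-1 : ℂ) b]
          ring
  rw [h3] at h2
  exact h2

theorem hRES : StRES := by
  intro h q n β Bd a m A P γ x r S hβ hx hr hS ha hexp hbd
  obtain ⟨U, hUd⟩ : ∃ U : Set ℂ, U = {z | ∀ k ∈ range n, z ≠ (a k : ℂ)} := ⟨_, rfl⟩
  have hmem : ∀ z, z ∈ U ↔ ∀ k ∈ range n, z ≠ (a k : ℂ) := by
    intro z
    rw [hUd]
    rfl
  have hU : IsOpen U := by
    have h1 : U = ⋂ k ∈ range n, {(a k : ℂ)}ᶜ := by
      ext z
      rw [hmem]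
      simp
    rw [h1]
    exact isOpen_biInter_finset fun k _ => isOpen_compl_singleton
  let G : ℕ → ℂ → ℂ := fun b z => (hasseDeriv b P).eval z +
    ∑ k ∈ range n, ∑ i ∈ range (m k), γ k i *
      ((-1) ^ b * ((b + i).choose i : ℂ) * ((z - (a k : ℂ))⁻¹) ^ (b + 1 + i))
  have hG : ∀ b, ∀ z ∈ U, HasDerivAt (G b) (((b : ℂ) + 1) * G (b + 1) z) z := by
    intro b z hz
    have h1 : HasDerivAt (fun z => ∑ k ∈ range n, ∑ i ∈ range (m k), γ k i *
        ((-1) ^ b * ((b + i).choose i : ℂ) * ((z - (a k : ℂ))⁻¹) ^ (b + 1 + i)))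
        (∑ k ∈ range n, ∑ i ∈ range (m k), γ k i *
          (((b : ℂ) + 1) * ((-1) ^ (b + 1) * ((b + 1 + i).choose i : ℂ)
            * ((z - (a k : ℂ))⁻¹) ^ (b + 1 + 1 + i)))) z :=
      HasDerivAt.fun_sum fun k hk => HasDerivAt.fun_sum fun i _ =>
        (pole_deriv (a k : ℂ) i b z ((hmem z).1 hz k hk)).const_mul (γ k i)
    have h2 := (poly_deriv P b z).add h1
    have h3 : ((b : ℂ) + 1) * (hasseDeriv (b + 1) P).eval z +
        ∑ k ∈ range n, ∑ i ∈ range (m k), γ k i *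
          (((b : ℂ) + 1) * ((-1) ^ (b + 1) * ((b + 1 + i).choose i : ℂ)
            * ((z - (a k : ℂ))⁻¹) ^ (b + 1 + 1 + i)))
        = ((b : ℂ) + 1) * G (b + 1) z := by
      show _ = ((b : ℂ) + 1) * ((hasseDeriv (b + 1) P).eval z +
        ∑ k ∈ range n, ∑ i ∈ range (m k), γ k i *
          ((-1) ^ (b + 1) * ((b + 1 + i).choose i : ℂ) * ((z - (a k : ℂ))⁻¹) ^ (b + 1 + 1 + i)))
      rw [mul_add, Finset.mul_sum]
      congr 1
      apply Finset.sum_congr rfl
      intro k _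
      rw [Finset.mul_sum]
      apply Finset.sum_congr rfl
      intro i _
      ring
    rw [h3] at h2
    exact h2
  have hf : ∀ z ∈ U, RF n a m A z = G 0 z := by
    intro z hz
    rw [hexp z ((hmem z).1 hz)]
    show _ = (hasseDeriv 0 P).eval z + _
    rw [hasseDeriv_zero']
    congr 1
    apply Finset.sum_congr rfl
    intro k _
    apply Finset.sum_congr rfl
    intro i _
    rw [zero_add, Nat.choose_self, pow_zero, zero_add, Nat.cast_one, one_mul, one_mul,
      inv_pow, add_comm 1 i, div_eq_mul_inv]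
  have hr0 : 0 < r := by linarith
  -- the discs contain no node
  have hdisc : ∀ j : ℕ, Metric.closedBall (-(j : ℂ) - (x : ℂ)) r ⊆ U := by
    intro j z hz
    rw [hmem]
    intro k hk he
    rw [Metric.mem_closedBall, dist_eq_norm, he] at hz
    have h1 : (a k : ℂ) - (-(j : ℂ) - (x : ℂ)) = ((a k + j + x : ℝ) : ℂ) := by
      push_cast
      ring
    rw [h1, Complex.norm_real] at hz
    have h2 := ha k hk
    have h3 : (0 : ℝ) ≤ j := Nat.cast_nonneg j
    have h4 := le_abs_self (a k + j + x)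
    rw [← Real.norm_eq_abs] at h4
    linarith
  have hest : ∀ j ∈ range (h + 1), ∀ b, ‖G b (-(j : ℂ) - (x : ℂ))‖ ≤ S := by
    intro j hj b
    have hw : (-(j : ℂ) - (x : ℂ)) ∈ U := hdisc j (Metric.mem_closedBall_self hr0.le)
    have hdiff : DifferentiableOn ℂ (RF n a m A) U := by
      intro z hz
      have h2 : RF n a m A =ᶠ[nhds z] G 0 := by
        filter_upwards [hU.mem_nhds hz] with y hy
        exact hf y hy
      exact ((hG 0 z hz).congr_of_eventuallyEq h2).differentiableAt.differentiableWithinAt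
    have hcl : DiffContOnCl ℂ (RF n a m A) (Metric.ball (-(j : ℂ) - (x : ℂ)) r) := by
      apply DifferentiableOn.diffContOnCl
      rw [closure_ball _ hr0.ne']
      exact hdiff.mono (hdisc j)
    have hC : ∀ z ∈ Metric.sphere (-(j : ℂ) - (x : ℂ)) r, ‖RF n a m A z‖ ≤ S := by
      intro z hz
      apply hbd j hj z
      rw [mem_sphere_iff_norm] at hz
      have h1 : z + (j : ℂ) + (x : ℂ) = z - (-(j : ℂ) - (x : ℂ)) := by ring
      rw [h1, hz]
    have h1 := Complex.norm_iteratedDeriv_le_of_forall_mem_sphere_norm_le b hr0 hcl hC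
    rw [iter_chain U hU G hG (RF n a m A) hf b _ hw, norm_mul, Complex.norm_natCast] at h1
    have h2 : (0 : ℝ) < b.factorial := by exact_mod_cast b.factorial_pos
    have h3 : (b.factorial : ℝ) * S / r ^ b ≤ b.factorial * S := by
      apply div_le_self (by positivity)
      exact one_le_pow₀ hr
    exact le_of_mul_le_mul_left (h1.trans h3) h2
  -- the identity
  have hid : (∑ j ∈ range (h + 1), ∑ b ∈ range q,
        (β j b : ℂ) * (hasseDeriv b P).eval (-(j : ℂ) - (x : ℂ))) -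
        ∑ k ∈ range n, ∑ i ∈ range (m k), γ k i * (fI h q β i (a k + x) : ℂ)
      = ∑ j ∈ range (h + 1), ∑ b ∈ range q, (β j b : ℂ) * G b (-(j : ℂ) - (x : ℂ)) := by
    have e1 : ∀ j b : ℕ, (β j b : ℂ) * G b (-(j : ℂ) - (x : ℂ))
        = (β j b : ℂ) * (hasseDeriv b P).eval (-(j : ℂ) - (x : ℂ))
          - ∑ k ∈ range n, ∑ i ∈ range (m k), γ k i *
            ((β j b : ℂ) * ((-1) ^ i * ((b + i).choose i : ℂ))
              * (((a k : ℂ) + (x : ℂ) + (j : ℂ))⁻¹) ^ (b + 1 + i)) := by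
      intro j b
      have hK : (β j b : ℂ) * (∑ k ∈ range n, ∑ i ∈ range (m k), γ k i *
          ((-1) ^ b * ((b + i).choose i : ℂ) *
            ((-(j : ℂ) - (x : ℂ) - (a k : ℂ))⁻¹) ^ (b + 1 + i)))
          = -∑ k ∈ range n, ∑ i ∈ range (m k), γ k i *
            ((β j b : ℂ) * ((-1) ^ i * ((b + i).choose i : ℂ))
              * (((a k : ℂ) + (x : ℂ) + (j : ℂ))⁻¹) ^ (b + 1 + i)) := by
        rw [Finset.mul_sum, ← Finset.sum_neg_distrib]
        apply Finset.sum_congr rfl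
        intro k _
        rw [Finset.mul_sum, ← Finset.sum_neg_distrib]
        apply Finset.sum_congr rfl
        intro i _
        have e2 : (-(j : ℂ) - (x : ℂ) - (a k : ℂ))⁻¹
            = -(((a k : ℂ) + (x : ℂ) + (j : ℂ))⁻¹) := by
          rw [← inv_neg]
          congr 1
          ring
        rw [e2, neg_pow (((a k : ℂ) + (x : ℂ) + (j : ℂ))⁻¹)]
        have e3 : (-1 : ℂ) ^ b * (-1) ^ (b + 1 + i) = -((-1) ^ i) := by
          have e4 : b + (b + 1 + i) = 2 * b + (1 + i) := by ring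
          rw [← pow_add, e4, pow_add, pow_mul, pow_add]
          norm_num
        calc (β j b : ℂ) * (γ k i * ((-1) ^ b * ((b + i).choose i : ℂ) *
              ((-1) ^ (b + 1 + i) * ((a k : ℂ) + (x : ℂ) + (j : ℂ))⁻¹ ^ (b + 1 + i))))
            = (β j b : ℂ) * γ k i * ((b + i).choose i : ℂ)
              * ((-1 : ℂ) ^ b * (-1) ^ (b + 1 + i))
              * ((a k : ℂ) + (x : ℂ) + (j : ℂ))⁻¹ ^ (b + 1 + i) := by ring
          _ = _ := by
            rw [e3]
            ring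
      show (β j b : ℂ) * ((hasseDeriv b P).eval (-(j : ℂ) - (x : ℂ)) + _) = _
      rw [mul_add, hK, ← sub_eq_add_neg]
    have e5 : ∀ (k i : ℕ), (fI h q β i (a k + x) : ℂ) = ∑ j ∈ range (h + 1), ∑ b ∈ range q,
        ((β j b : ℂ) * ((-1) ^ i * ((b + i).choose i : ℂ))
              * (((a k : ℂ) + (x : ℂ) + (j : ℂ))⁻¹) ^ (b + 1 + i)) := by
      intro k i
      unfold fI
      push_cast
      rfl
    simp_rw [e1]
    simp_rw [Finset.sum_sub_distrib]
    congr 1
    simp_rw [e5, Finset.mul_sum]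
    have hsw : ∀ f : ℕ → ℕ → ℕ → ℕ → ℂ,
        ∑ k ∈ range n, ∑ i ∈ range (m k), ∑ j ∈ range (h + 1), ∑ b ∈ range q, f k i j b
        = ∑ j ∈ range (h + 1), ∑ b ∈ range q, ∑ k ∈ range n, ∑ i ∈ range (m k), f k i j b := by
      intro f
      calc ∑ k ∈ range n, ∑ i ∈ range (m k), ∑ j ∈ range (h + 1), ∑ b ∈ range q, f k i j b
          = ∑ k ∈ range n, ∑ j ∈ range (h + 1), ∑ i ∈ range (m k), ∑ b ∈ range q, f k i j b :=
            Finset.sum_congr rfl fun k _ => Finset.sum_comm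
        _ = ∑ j ∈ range (h + 1), ∑ k ∈ range n, ∑ i ∈ range (m k), ∑ b ∈ range q, f k i j b :=
            Finset.sum_comm
        _ = ∑ j ∈ range (h + 1), ∑ k ∈ range n, ∑ b ∈ range q, ∑ i ∈ range (m k), f k i j b :=
            Finset.sum_congr rfl fun j _ => Finset.sum_congr rfl fun k _ => Finset.sum_comm
        _ = ∑ j ∈ range (h + 1), ∑ b ∈ range q, ∑ k ∈ range n, ∑ i ∈ range (m k), f k i j b :=
            Finset.sum_congr rfl fun j _ => Finset.sum_comm
    exact hsw fun k i j b => γ k i * ((β j b : ℂ) * ((-1) ^ i * ((b + i).choose i : ℂ))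
              * (((a k : ℂ) + (x : ℂ) + (j : ℂ))⁻¹) ^ (b + 1 + i))
  rw [hid]
  calc ‖∑ j ∈ range (h + 1), ∑ b ∈ range q, (β j b : ℂ) * G b (-(j : ℂ) - (x : ℂ))‖
      ≤ ∑ j ∈ range (h + 1), ∑ b ∈ range q, Bd * S := by
        refine (norm_sum_le _ _).trans (Finset.sum_le_sum fun j hj => ?_)
        refine (norm_sum_le _ _).trans (Finset.sum_le_sum fun b _ => ?_)
        rw [norm_mul]
        have h1 : ‖(β j b : ℂ)‖ ≤ Bd := by
          rw [Complex.norm_intCast]
          exact hβ j b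
        exact mul_le_mul h1 (hest j hj b) (norm_nonneg _) ((norm_nonneg _).trans h1)
    _ = ((h : ℝ) + 1) * q * Bd * S := by
        simp only [Finset.sum_const, Finset.card_range, nsmul_eq_mul]
        push_cast
        ring

end Pool.Agent.Helper40.XG
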